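import Pool.Agent.Helper87.RAM.Defs
import Pool.Agent.Helper87.RAM.Alg

/-!
Magnitudes of polynomial expressions `p(W)` (block B of MP_a35923_lc).
-/

open Filter Topology Polynomial Set

namespace Pool.Agent.Helper87.RAM

variable {K L : Subring 𝓖}

/-- an element of largest order in a finite set -/
theorem alpha_exists_max (hL : IsHardy L) {ι : Type*} (s : Finset ι) (hs : s.Nonempty)
    (f : ι → ℝ → ℝ) (hf : ∀ i ∈ s, gm (f i) ∈ L) (hne : ∀ i ∈ s, ∀ᶠ t in atTop, f i t ≠ 0) :
    ∃ m ∈ s, ∀ i ∈ s, ∃ c : ℝ, Tendsto (fun t => f i t / f m t) atTop (𝓝 c) := by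
  classical
  induction hs using Finset.Nonempty.cons_induction with
  | singleton a =>
    refine ⟨a, by simp, fun i hi => ?_⟩
    rw [Finset.mem_singleton.1 hi]
    exact ⟨1, tendsto_const_nhds.congr' ((hne a (by simp)).mono fun t ht => (div_self ht).symm)⟩
  | cons a s ha hs ih =>
    obtain ⟨m, hm, ih⟩ := ih (fun i hi => hf i (Finset.mem_cons_of_mem hi))
      (fun i hi => hne i (Finset.mem_cons_of_mem hi))
    have hma : a ∈ Finset.cons a s ha := Finset.mem_cons_self a s
    have hne' := hne m (Finset.mem_cons_of_mem hm)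
    have hinv : (fun t => (f a t / f m t)⁻¹) = fun t => f m t / f a t := by
      funext t; rw [inv_div]
    have key : Tendsto (fun t => f m t / f a t) atTop (𝓝 0) →
        ∃ m ∈ Finset.cons a s ha, ∀ i ∈ Finset.cons a s ha,
          ∃ c : ℝ, Tendsto (fun t => f i t / f m t) atTop (𝓝 c) := by
      intro h
      refine ⟨a, hma, fun i hi => ?_⟩
      rcases Finset.mem_cons.1 hi with rfl | hi
      · exact ⟨1, tendsto_const_nhds.congr' ((hne i hma).mono fun t ht => (div_self ht).symm)⟩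
      · obtain ⟨c, hc⟩ := ih i hi
        refine ⟨c * 0, (hc.mul h).congr' ?_⟩
        filter_upwards [hne'] with t ht
        field_simp
    rcases hL.lim (hL.div_mem (hf a hma) (hf m (Finset.mem_cons_of_mem hm))) with h | h | ⟨c, h⟩
    · exact key (hinv ▸ h.inv_tendsto_atTop)
    · exact key (hinv ▸ h.inv_tendsto_atBot)
    · refine ⟨m, Finset.mem_cons_of_mem hm, fun i hi => ?_⟩
      rcases Finset.mem_cons.1 hi with rfl | hi
      · exact ⟨c, h⟩
      · exact ih i hi

/-- a continuous function without zeros has constant sign -/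
theorem alpha_const_sign {f : ℝ → ℝ} (hf : Continuous f) (h : ∀ x, f x ≠ 0) :
    (∀ x, 0 < f x) ∨ (∀ x, f x < 0) := by
  rcases lt_or_gt_of_ne (h 0) with h0 | h0
  · right
    intro x
    by_contra hx
    push Not at hx
    have h1 : (0 : ℝ) ∈ uIcc (f 0) (f x) := by
      rw [uIcc_of_le (h0.le.trans hx)]; exact ⟨h0.le, hx⟩
    obtain ⟨y, -, hy⟩ := intermediate_value_uIcc (hf.continuousOn) h1
    exact h y hy
  · left
    intro x
    by_contra hx
    push Not at hx
    have h1 : (0 : ℝ) ∈ uIcc (f x) (f 0) := by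
      rw [uIcc_of_le (hx.trans h0.le)]; exact ⟨hx, h0.le⟩
    obtain ⟨y, -, hy⟩ := intermediate_value_uIcc (hf.continuousOn) h1
    exact h y hy

/-- existence of an interior local minimum for large `t` -/
theorem alpha_exists_crit {φ : ℝ → ℝ → ℝ} (hφ : ∀ t, Continuous (φ t)) {R : ℝ → ℝ}
    (hlim : ∀ x, Tendsto (fun t => φ t x) atTop (𝓝 (R x))) {x₁ c x₂ : ℝ} (h1 : x₁ < c)
    (h2 : c < x₂) (hc : R c = 0) (hx1 : 0 < R x₁) (hx2 : 0 < R x₂) :
    ∀ᶠ t in atTop, ∃ ξ ∈ Ioo x₁ x₂, IsLocalMin (φ t) ξ := by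
  obtain ⟨δ, hδ0, hδ1, hδ2⟩ : ∃ δ : ℝ, 0 < δ ∧ δ < R x₁ ∧ δ < R x₂ := by
    refine ⟨min (R x₁) (R x₂) / 2, by positivity, ?_, ?_⟩
    · have := min_le_left (R x₁) (R x₂); linarith [lt_min hx1 hx2]
    · have := min_le_right (R x₁) (R x₂); linarith [lt_min hx1 hx2]
  have hc' := hlim c
  rw [hc] at hc'
  filter_upwards [hc'.eventually_lt_const hδ0, (hlim x₁).eventually_const_lt hδ1,
    (hlim x₂).eventually_const_lt hδ2] with t h3 h4 h5
  obtain ⟨ξ, hξ, hmin⟩ := isCompact_Icc.exists_isMinOn (nonempty_Icc.2 (h1.trans h2).le)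
    (hφ t).continuousOn
  have h6 : φ t ξ ≤ φ t c := hmin ⟨h1.le, h2.le⟩
  have h7 : ξ ≠ x₁ := by rintro rfl; linarith
  have h8 : ξ ≠ x₂ := by rintro rfl; linarith
  have h9 : ξ ∈ Ioo x₁ x₂ := ⟨lt_of_le_of_ne hξ.1 (Ne.symm h7), lt_of_le_of_ne hξ.2 h8⟩
  exact ⟨ξ, h9, hmin.isLocalMin (Icc_mem_nhds h9.1 h9.2)⟩

/-- pointwise evaluation of a product of linear factors -/
theorem alpha_pe_prod (s : Multiset K) (q : K[X]) : ∀ᶠ t in atTop, ∀ x,
    pe ((s.map fun a => X - C a).prod * q) t x =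
      (s.map fun a : K => x - rep (a : 𝓖) t).prod * pe q t x := by
  induction s using Multiset.induction_on with
  | empty => exact Eventually.of_forall fun t x => by simp
  | cons a s ih =>
    have h1 : ((a ::ₘ s).map fun a => X - C a).prod * q
        = (X - C a) * ((s.map fun a => X - C a).prod * q) := by
      rw [Multiset.map_cons, Multiset.prod_cons, mul_assoc]
    rw [h1]
    filter_upwards [ih, pe_mul (X - C a) ((s.map fun a => X - C a).prod * q),
      pe_X_sub_C a (gm_rep (a : 𝓖))] with t h2 h3 h4 x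
    rw [h3, h4, h2, Multiset.map_cons, Multiset.prod_cons, mul_assoc]

theorem alpha_pe_comp (p : K[X]) (k b : K) {kF bF : ℝ → ℝ} (hk : gm kF = k) (hb : gm bF = b) :
    ∀ᶠ t in atTop, ∀ x, pe (p.comp (C k * X + C b)) t x = pe p t (kF t * x + bF t) := by
  refine eventually_forall_of fun Y => ?_
  have h := aeval_pe (K := K) Y (p.comp (C k * X + C b))
  have h1 : aeval (gm Y) (C k * X + C b : K[X]) = gm (fun t => kF t * Y t + bF t) := by
    rw [map_add, map_mul, aeval_C, aeval_C, aeval_X]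
    have h2 : (algebraMap K 𝓖) k = (k : 𝓖) := rfl
    have h3 : (algebraMap K 𝓖) b = (b : 𝓖) := rfl
    rw [h2, h3, ← hk, ← hb]
    rfl
  rw [aeval_comp, h1, aeval_pe, gm_eq] at h
  exact h.mono fun t ht => ht.symm

theorem alpha_sum_tendsto (g : K[X]) {m : ℕ} {r : ℕ → ℝ}
    (hr : ∀ i ∈ g.support, Tendsto (fun t => rep (g.coeff i : 𝓖) t / rep (g.coeff m : 𝓖) t)
      atTop (𝓝 (r i))) {x : ℝ → ℝ} {c : ℝ} (hx : Tendsto x atTop (𝓝 c)) :
    Tendsto (fun t => pe g t (x t) / rep (g.coeff m : 𝓖) t) atTop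
      (𝓝 ((∑ i ∈ g.support, monomial i (r i) : ℝ[X]).eval c)) := by
  rw [eval_finsetSum]
  simp only [eval_monomial]
  have h1 : (fun t => pe g t (x t) / rep (g.coeff m : 𝓖) t)
      = fun t => ∑ i ∈ g.support, rep (g.coeff i : 𝓖) t / rep (g.coeff m : 𝓖) t * x t ^ i := by
    funext t
    unfold pe
    rw [Finset.sum_div]
    exact Finset.sum_congr rfl fun i _ => by ring
  rw [h1]
  exact tendsto_finsetSum _ fun i hi => (hr i hi).mul (hx.pow i)

theorem alpha (hK : IsHardy K) (hL : IsHardy L) (hKL : K ≤ L)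
    (hroots : ∀ p : K[X], p ≠ 0 → (∃ᶠ t in atTop, ∃ x, pe p t x = 0) → ∃ b : K, p.IsRoot b)
    {W : ℝ → ℝ} (hW : gm W ∈ L) (hWK : gm W ∉ K)
    (h : ∀ B : ℝ → ℝ, gm B ∈ K → ∃ A : ℝ → ℝ, gm A ∈ K ∧ Sim (fun t => W t - B t) A)
    (p : K[X]) (hp : p ≠ 0) :
    ∃ A : ℝ → ℝ, gm A ∈ K ∧ ∀ F : ℝ → ℝ, gm F = aeval (gm W) p → Sim F A := by
  classical
  let _ := hK.field
  -- it suffices to treat one representative
  suffices hsuff : ∀ n : ℕ, ∀ p : K[X], p ≠ 0 → p.natDegree = n →
      ∃ A : ℝ → ℝ, gm A ∈ K ∧ Sim (fun t => pe p t (W t)) A by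
    obtain ⟨A, hA, hs⟩ := hsuff _ p hp rfl
    refine ⟨A, hA, fun F hF => hs.congr_left ?_⟩
    rw [aeval_pe, gm_eq] at hF
    exact hF.symm
  have hcharz : CharZero K := by
    refine ⟨fun a b hab => ?_⟩
    have h1 : ((a : K) : 𝓖) = ((b : K) : 𝓖) := congrArg Subtype.val hab
    have h2 : gm (fun _ => (a : ℝ)) = gm (fun _ => (b : ℝ)) := by
      simpa using h1
    rw [gm_eq] at h2
    obtain ⟨t, ht⟩ := h2.exists
    exact_mod_cast (show (a : ℝ) = (b : ℝ) from ht)
  have hne : ∀ B : ℝ → ℝ, gm B ∈ K → ∀ᶠ t in atTop, W t - B t ≠ 0 := by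
    intro B hB
    obtain ⟨A, hA, hs⟩ := h B hB
    exact hs.ne_zero_left
  have hrepK : ∀ a : K, gm (rep (a : 𝓖)) ∈ K := fun a => by rw [gm_rep]; exact a.2
  have hrep0 : ∀ a : K, a ≠ 0 → ∀ᶠ t in atTop, rep (a : 𝓖) t ≠ 0 := by
    intro a ha
    refine hK.ne_zero (hrepK a) ?_
    rw [gm_rep]
    exact fun h0 => ha (Subtype.ext h0)
  intro n
  induction n using Nat.strong_induction_on with
  | _ n ih =>
  intro p hp hn
  rcases Nat.eq_zero_or_pos n with hn0 | hn0
  · -- constants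
    rw [hn0] at hn
    have h1 := eq_C_of_natDegree_eq_zero hn
    have h2 : p.coeff 0 ≠ 0 := by
      intro h0; rw [h0, C_0] at h1; exact hp h1
    refine ⟨rep (p.coeff 0 : 𝓖), hrepK _, ?_⟩
    refine (Sim.refl (hrep0 _ h2)).congr_left ?_
    have h3 := pe_C (K := K) (p.coeff 0) (gm_rep (p.coeff 0 : 𝓖))
    rw [← h1] at h3
    filter_upwards [h3] with t ht
    exact (ht _).symm
  by_cases hroot : ∃ b : K, p.IsRoot b
  · -- a root in `K`
    obtain ⟨b, hb⟩ := hroot
    obtain ⟨q, hq⟩ := dvd_iff_isRoot.2 hb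
    have hq0 : q ≠ 0 := by rintro rfl; exact hp (by rw [hq, mul_zero])
    have hdeg : p.natDegree = 1 + q.natDegree := by
      rw [hq, natDegree_mul (X_sub_C_ne_zero b) hq0, natDegree_X_sub_C]
    obtain ⟨A, hA, hs⟩ := ih q.natDegree (by omega) q hq0 rfl
    obtain ⟨B, hB, hs'⟩ := h (rep (b : 𝓖)) (hrepK b)
    refine ⟨fun t => B t * A t, mul_mem' hB hA, (hs'.mul hs).congr_left ?_⟩
    have h1 := pe_mul (X - C b) q
    rw [← hq] at h1
    filter_upwards [h1, pe_X_sub_C b (gm_rep (b : 𝓖))] with t h2 h3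
    rw [h2, h3]
  -- no root in `K`
  have hnz : ∀ᶠ t in atTop, ∀ x, pe p t x ≠ 0 := by
    by_contra hcon
    refine hroot (hroots p hp ?_)
    rw [not_eventually] at hcon
    refine hcon.mono fun t ht => ?_
    push Not at ht
    exact ht
  -- the derivative
  set d := derivative p with hd
  have hd0 : d ≠ 0 := by
    intro h0
    have := derivative_eq_zero.1 h0
    omega
  obtain ⟨q, hq1, -, hq2⟩ := exists_prod_multiset_X_sub_C_mul d
  have hq0 : q ≠ 0 := by rintro rfl; exact hd0 (by rw [← hq1, mul_zero])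
  have hqnz : ∀ᶠ t in atTop, ∀ x, pe q t x ≠ 0 := by
    by_contra hcon
    have : ∃ b : K, q.IsRoot b := by
      refine hroots q hq0 ?_
      rw [not_eventually] at hcon
      refine hcon.mono fun t ht => ?_
      push Not at ht
      exact ht
    obtain ⟨b, hb⟩ := this
    have h1 : b ∈ q.roots := (mem_roots hq0).2 hb
    rw [hq2] at h1
    simp at h1
  have hdz : ∀ᶠ t in atTop, ∀ x, pe d t x = 0 → ∃ a ∈ d.roots, x = rep (a : 𝓖) t := by
    have h1 := alpha_pe_prod d.roots q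
    rw [hq1] at h1
    filter_upwards [h1, hqnz] with t h2 h3 x hx
    rw [h2 x] at hx
    rcases mul_eq_zero.1 hx with h4 | h4
    · rw [Multiset.prod_eq_zero_iff, Multiset.mem_map] at h4
      obtain ⟨a, ha, h5⟩ := h4
      exact ⟨a, ha, by linarith⟩
    · exact absurd h4 (h3 x)
  -- the closest critical point
  obtain ⟨b, hbS, hbmin⟩ := alpha_exists_max hL (insert 0 d.roots.toFinset)
    (Finset.insert_nonempty _ _) (fun a t => (W t - rep (a : 𝓖) t)⁻¹)
    (fun a _ => hL.inv_mem (sub_mem' hW (hKL (hrepK a))))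
    (fun a _ => (hne _ (hrepK a)).mono fun t ht => inv_ne_zero ht)
  obtain ⟨kF, hkK, c, hc0, hc⟩ := h (rep (b : 𝓖)) (hrepK b)
  have hk0 : ∀ᶠ t in atTop, kF t ≠ 0 := (show Sim _ _ from ⟨c, hc0, hc⟩).ne_zero_right
  set w : ℝ → ℝ := fun t => (W t - rep (b : 𝓖) t) / kF t with hw
  set k : K := ⟨gm kF, hkK⟩ with hkdef
  have hk0' : k ≠ 0 := by
    intro h0
    exact gm_ne_zero_of hk0 (congrArg Subtype.val h0)
  set g : K[X] := p.comp (C k * X + C b) with hg
  have hpeg := alpha_pe_comp p k b (kF := kF) (bF := rep (b : 𝓖)) rfl (gm_rep _)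
  rw [← hg] at hpeg
  have hg0 : g ≠ 0 := by
    intro h0
    have h1 : g.natDegree = p.natDegree * (C k * X + C b).natDegree := natDegree_comp
    rw [natDegree_linear hk0', h0, natDegree_zero, mul_one] at h1
    omega
  obtain ⟨m, hm, hmax⟩ := alpha_exists_max hK g.support (nonempty_support_iff.2 hg0)
    (fun i => rep (g.coeff i : 𝓖)) (fun i _ => hrepK _)
    (fun i hi => hrep0 _ (mem_support_iff.1 hi))
  choose! r hr using hmax
  have hm0 := hrep0 _ (mem_support_iff.1 hm)
  set R : ℝ[X] := ∑ i ∈ g.support, monomial i (r i) with hR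
  have hrm : r m = 1 := by
    refine tendsto_nhds_unique (hr m hm) ?_
    exact tendsto_const_nhds.congr' (hm0.mono fun t ht => (div_self ht).symm)
  have hR0 : R ≠ 0 := by
    intro h0
    have h1 : R.coeff m = 1 := by
      rw [hR, finsetSum_coeff]
      simp only [coeff_monomial]
      rw [Finset.sum_ite_eq' g.support m r, if_pos hm, hrm]
    rw [h0, coeff_zero] at h1
    exact zero_ne_one h1
  have hlimx : ∀ x : ℝ, Tendsto (fun t => pe g t x / rep (g.coeff m : 𝓖) t) atTop
      (𝓝 (R.eval x)) := fun x => alpha_sum_tendsto g hr tendsto_const_nhds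
  have hlimw : Tendsto (fun t => pe g t (w t) / rep (g.coeff m : 𝓖) t) atTop
      (𝓝 (R.eval c)) := alpha_sum_tendsto g hr hc
  have hpw : ∀ᶠ t in atTop, pe g t (w t) = pe p t (W t) := by
    filter_upwards [hpeg, hk0] with t h1 h2
    rw [h1]
    congr 1
    simp only [hw]
    field_simp
    ring
  by_cases hRc : R.eval c ≠ 0
  · refine ⟨rep (g.coeff m : 𝓖), hrepK _, R.eval c, hRc, hlimw.congr' ?_⟩
    filter_upwards [hpw] with t ht
    rw [ht]
  push Not at hRc
  exfalso
  -- constant sign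
  have hsign : ∃ s : ℝ, s ≠ 0 ∧ ∀ᶠ t in atTop, ∀ x,
      0 < s * (pe g t x / rep (g.coeff m : 𝓖) t) := by
    have hQL : gm (fun t => pe p t (W t) / rep (g.coeff m : 𝓖) t) ∈ L := by
      refine hL.div_mem ?_ (hKL (hrepK _))
      rw [← aeval_pe]
      exact (hasDer_aeval hK hKL hW (hL.der _ hW) p).2
    have hcs : ∀ᶠ t in atTop, (∀ x, 0 < pe g t x / rep (g.coeff m : 𝓖) t) ∨
        (∀ x, pe g t x / rep (g.coeff m : 𝓖) t < 0) := by
      filter_upwards [hnz, hpeg, hm0] with t h1 h2 h3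
      refine alpha_const_sign ((pe_continuous g t).div_const _) fun x => ?_
      rw [h2]
      exact div_ne_zero (h1 _) h3
    rcases hL.sign hQL with h1 | h1 | h1
    · exfalso
      obtain ⟨t, h2, h3, h4⟩ := (h1.and (hnz.and hm0)).exists
      exact div_ne_zero (h3 _) h4 h2
    · refine ⟨1, one_ne_zero, ?_⟩
      filter_upwards [hcs, h1, hpw] with t h2 h3 h4 x
      rw [one_mul]
      rcases h2 with h2 | h2
      · exact h2 x
      · have := h2 (w t)
        rw [h4] at this
        exact absurd h3 (not_lt.2 this.le)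
    · refine ⟨-1, by norm_num, ?_⟩
      filter_upwards [hcs, h1, hpw] with t h2 h3 h4 x
      rcases h2 with h2 | h2
      · have := h2 (w t)
        rw [h4] at this
        exact absurd h3 (not_lt.2 this.le)
      · have := h2 x
        linarith
  obtain ⟨s, hs0, hsign⟩ := hsign
  have hRnn : ∀ x, 0 ≤ s * R.eval x := fun x =>
    ge_of_tendsto ((hlimx x).const_mul s) (hsign.mono fun t ht => (ht x).le)
  -- critical points close to `c`
  have hclose : ∀ ε : ℝ, 0 < ε → ∀ᶠ t in atTop, ∃ a ∈ d.roots,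
      |(rep (a : 𝓖) t - rep (b : 𝓖) t) / kF t - c| < ε := by
    intro ε hε
    have hfin : {x : ℝ | R.eval x = 0}.Finite := by
      have : {x : ℝ | R.eval x = 0} ⊆ (R.roots.toFinset : Set ℝ) := by
        intro x hx
        simp only [Finset.mem_coe, Multiset.mem_toFinset]
        exact (mem_roots hR0).2 hx
      exact (Finset.finite_toSet _).subset this
    obtain ⟨x₁, hx1, hx1'⟩ : ∃ x ∈ Ioo (c - ε) c, R.eval x ≠ 0 := by
      by_contra hcon
      push Not at hcon
      exact (Ioo_infinite (show c - ε < c by linarith)) (hfin.subset fun x hx => hcon x hx)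
    obtain ⟨x₂, hx2, hx2'⟩ : ∃ x ∈ Ioo c (c + ε), R.eval x ≠ 0 := by
      by_contra hcon
      push Not at hcon
      exact (Ioo_infinite (show c < c + ε by linarith)) (hfin.subset fun x hx => hcon x hx)
    have h1 := alpha_exists_crit (φ := fun t x => s * (pe g t x / rep (g.coeff m : 𝓖) t))
      (R := fun x => s * R.eval x)
      (fun t => ((pe_continuous g t).div_const _).const_mul s)
      (fun x => (hlimx x).const_mul s) hx1.2 hx2.1 (by rw [hRc, mul_zero])
      (lt_of_le_of_ne (hRnn _) (Ne.symm (mul_ne_zero hs0 hx1')))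
      (lt_of_le_of_ne (hRnn _) (Ne.symm (mul_ne_zero hs0 hx2')))
    filter_upwards [h1, hpeg, hm0, hk0, hdz, pe_hasDerivAt p] with t h2 h3 h4 h5 h6 h7
    obtain ⟨ξ, hξ, hmin⟩ := h2
    have h8 : HasDerivAt (fun x => s * (pe g t x / rep (g.coeff m : 𝓖) t))
        (s * (pe d t (kF t * ξ + rep (b : 𝓖) t) * kF t / rep (g.coeff m : 𝓖) t)) ξ := by
      have h9 : HasDerivAt (fun x => kF t * x + rep (b : 𝓖) t) (kF t) ξ := by
        simpa using ((hasDerivAt_id ξ).const_mul (kF t)).add_const (rep (b : 𝓖) t)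
      have h10 := (h7 (kF t * ξ + rep (b : 𝓖) t)).comp ξ h9
      have h11 : (pe g t) = pe p t ∘ fun x => kF t * x + rep (b : 𝓖) t := funext fun x => h3 x
      have h12 : (fun x => s * (pe g t x / rep (g.coeff m : 𝓖) t))
        = fun x => s * ((pe p t ∘ fun x => kF t * x + rep (b : 𝓖) t) x
          / rep (g.coeff m : 𝓖) t) := by
        rw [← h11]
      rw [h12]
      exact (h10.div_const _).const_mul s
    have h13 := hmin.hasDerivAt_eq_zero h8
    have h14 : pe d t (kF t * ξ + rep (b : 𝓖) t) = 0 := by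
      rcases mul_eq_zero.1 h13 with h15 | h15
      · exact absurd h15 hs0
      rcases div_eq_zero_iff.1 h15 with h16 | h16
      · rcases mul_eq_zero.1 h16 with h17 | h17
        · exact h17
        · exact absurd h17 h5
      · exact absurd h16 h4
    obtain ⟨a, ha, h15⟩ := h6 _ h14
    refine ⟨a, ha, ?_⟩
    rw [← h15]
    have h16 : (kF t * ξ + rep (b : 𝓖) t - rep (b : 𝓖) t) / kF t = ξ := by
      field_simp
      ring
    rw [h16, abs_lt]
    exact ⟨by linarith [hξ.1, hx1.1], by linarith [hξ.2, hx2.2]⟩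
  -- some critical point converges
  obtain ⟨a, ha, hac⟩ : ∃ a ∈ d.roots,
      Tendsto (fun t => (rep (a : 𝓖) t - rep (b : 𝓖) t) / kF t) atTop (𝓝 c) := by
    by_contra hcon
    push Not at hcon
    have h1 : ∀ a ∈ d.roots.toFinset, ∃ ε : ℝ, 0 < ε ∧ ∀ᶠ t in atTop,
        ε ≤ |(rep (a : 𝓖) t - rep (b : 𝓖) t) / kF t - c| := by
      intro a ha
      have hmem : gm (fun t => (rep (a : 𝓖) t - rep (b : 𝓖) t) / kF t) ∈ K :=
        hK.div_mem (sub_mem' (hrepK a) (hrepK b)) hkK
      rcases hK.lim hmem with h2 | h2 | ⟨e, h2⟩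
      · refine ⟨1, one_pos, ?_⟩
        filter_upwards [h2.eventually_ge_atTop (c + 1)] with t ht
        exact le_trans (by linarith) (le_abs_self _)
      · refine ⟨1, one_pos, ?_⟩
        filter_upwards [h2.eventually_le_atBot (c - 1)] with t ht
        exact le_trans (by linarith) (neg_le_abs _)
      · have hec : e ≠ c := by
          rintro rfl
          exact hcon a (Multiset.mem_toFinset.1 ha) h2
        refine ⟨|e - c| / 2, by have := abs_pos.2 (sub_ne_zero.2 hec); positivity, ?_⟩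
        have h3 := (h2.sub_const c).abs
        have h4 := abs_pos.2 (sub_ne_zero.2 hec)
        exact (h3.eventually_const_lt (show |e - c| / 2 < |e - c| by linarith)).mono
          fun t ht => ht.le
    choose! ε hε using h1
    obtain ⟨ε₀, hε0, hε1⟩ : ∃ ε₀ : ℝ, 0 < ε₀ ∧ ∀ a ∈ d.roots.toFinset, ε₀ ≤ ε a := by
      by_cases hne' : d.roots.toFinset.Nonempty
      · obtain ⟨a, ha, hmin⟩ := d.roots.toFinset.exists_min_image ε hne'
        exact ⟨ε a, (hε a ha).1, hmin⟩
      · rw [Finset.not_nonempty_iff_eq_empty] at hne'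
        exact ⟨1, one_pos, fun a ha => by rw [hne'] at ha; simp at ha⟩
    have h2 : ∀ᶠ t in atTop, ∀ a ∈ d.roots.toFinset,
        ε a ≤ |(rep (a : 𝓖) t - rep (b : 𝓖) t) / kF t - c| :=
      (Finset.eventually_all _).2 fun a ha => (hε a ha).2
    obtain ⟨t, h3, a, ha, h4⟩ := (h2.and (hclose ε₀ hε0)).exists
    have h5 := h3 a (Multiset.mem_toFinset.2 ha)
    have h6 := hε1 a (Multiset.mem_toFinset.2 ha)
    linarith
  -- contradiction with the choice of `b`
  obtain ⟨e, he⟩ := hbmin a (Finset.mem_insert_of_mem (Multiset.mem_toFinset.2 ha))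
  have h1 : Tendsto (fun t => (W t - rep (a : 𝓖) t) / kF t) atTop (𝓝 (c - c)) := by
    refine (hc.sub hac).congr fun t => ?_
    ring
  rw [sub_self] at h1
  have h2 : Tendsto (fun t => (W t - rep (a : 𝓖) t) / kF t /
      ((W t - rep (b : 𝓖) t) / kF t)) atTop (𝓝 (0 / c)) := h1.div hc hc0
  rw [zero_div] at h2
  have h3 := he.mul h2
  rw [mul_zero] at h3
  have h4 : Tendsto (fun _ : ℝ => (1 : ℝ)) atTop (𝓝 0) := by
    refine h3.congr' ?_
    filter_upwards [hne _ (hrepK a), hne _ (hrepK b), hk0] with t h5 h6 h7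
    field_simp
  exact zero_ne_one (tendsto_nhds_unique h4 tendsto_const_nhds)

end Pool.Agent.Helper87.RAM
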